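import Pool.Agent.Q6.FD.Comp
import Pool.Agent.TH729.SQ.Comp

/-!
# Mazur's conjecture on the components of the closure of the rational points: double covers of the flag variety

Let `W ⊆ ℙ² × ℙ²` be the variety `x₀y₀ + x₁y₁ + x₂y₂ = 0` of the flags (point, line) of the plane
over `ℚ`, `F(x, y)` any form of bidegree `(2, 2)` with rational coefficients, and `X` the double
cover `w² = F(x, y)` of `W`; in the smooth case these are Fano threefolds (No. 2.6 (b) in the list
of Mori and Mukai). In the affine coordinates `(s, p, q)` of `W` (the flags `x = (1, p, q)`,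
`y = (q - ps, s, -1)`) this is `w² = G(s, p, q)`. (As `F` is arbitrary, one can use a linear change
of coordinates of the plane to treat the neighbourhood of any other flag.)

(1) The closure of the set of the rational points outside the branch divisor has only finitely many
connected components, and also its part outside the branch divisor, which is the closure in the
real points of the open subvariety `w ≠ 0`.

(2) The closure of the set of all rational points is open in the set of the real points outside the
branch divisor; so there it is a union of connected components.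

(3) If there are only finitely many rational points of the branch divisor at which both conics
through the point are singular (this means that the branch divisor is singular or tangent to the
contact plane), then the closure of the set of all rational points of `w² = G(s, p, q)` has only
finitely many connected components.

Idea of the proof. A rational point moves on the conics of the two conic fibrations; the moves
depend continuously on the point and a rational parameter, so they preserve the closure. Every
real point close to a limit `T` of rational points can be reached from `T` by four small moves.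
-/

set_option autoImplicit false
set_option maxHeartbeats 400000

namespace Pool.Agent.Results.MP_4d3b00_ag.FlagDoubleCovers

open MvPolynomial Filter Topology Pool.Agent.Q6.FD

/-- The form of bidegree `(2, 2)` with the coefficients `c` at the point `(x, y)`. -/
noncomputable def form {R : Type} [CommRing R] [Algebra ℚ R]
    (c : Fin 3 → Fin 3 → Fin 3 → Fin 3 → ℚ) (x y : Fin 3 → R) : R :=
  ∑ i, ∑ j, ∑ l, ∑ m, algebraMap ℚ R (c i j l m) * x i * x j * y l * y m

/-- The form in the affine coordinates `s = X 0`, `p = X 1`, `q = X 2` of the variety of flags: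
its value at `x = (1, p, q)`, `y = (q - p s, s, -1)`. -/
noncomputable def affineForm (c : Fin 3 → Fin 3 → Fin 3 → Fin 3 → ℚ) : MvPolynomial (Fin 3) ℚ :=
  form c ![1, X 1, X 2] ![X 2 - X 1 * X 0, X 0, -1]

/-- The rational points `(w, s, p, q)` of the affine variety `w² = G(s, p, q)`. -/
def cover (G : MvPolynomial (Fin 3) ℚ) : Set (Fin 4 → ℚ) :=
  {u | u 0 ^ 2 = eval ![u 1, u 2, u 3] G}

/-- The real points of this variety. -/
def realCover (G : MvPolynomial (Fin 3) ℚ) : Set (Fin 4 → ℝ) :=
  {x | x 0 ^ 2 = aeval ![x 1, x 2, x 3] G}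

/-- The closure in `ℝᵐ` of a set of rational points. -/
def realClosure {m : ℕ} (D : Set (Fin m → ℚ)) : Set (Fin m → ℝ) :=
  closure {x : Fin m → ℝ | ∃ u ∈ D, x = fun k => (u k : ℝ)}

section aux

/-- coordinates -/
def hom : (Fin 4 → ℝ) ≃ₜ ℝ × ℝ × ℝ × ℝ where
  toFun x := (x 0, x 1, x 2, x 3)
  invFun z := ![z.1, z.2.1, z.2.2.1, z.2.2.2]
  left_inv x := by
    funext i
    fin_cases i <;> rfl
  right_inv z := rfl
  continuous_toFun := by fun_prop
  continuous_invFun := by
    refine continuous_pi fun j => ?_
    fin_cases j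
    · exact continuous_fst
    · exact continuous_fst.comp continuous_snd
    · exact continuous_fst.comp (continuous_snd.comp continuous_snd)
    · exact continuous_snd.comp (continuous_snd.comp continuous_snd)

variable {G : MvPolynomial (Fin 3) ℚ}

lemma ev_q (f : MvPolynomial (Fin 3) ℚ) (a b c : ℚ) : ev f (a, b, c) = eval ![a, b, c] f := by
  rw [ev, aeval_eq_eval]

lemma out_eq : realClosure {u | u ∈ cover G ∧ u 0 ≠ 0} = hom ⁻¹' (W0 G) := by
  rw [W0, hom.preimage_closure, realClosure]
  congr 1
  ext x
  constructor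
  · rintro ⟨u, ⟨hu, hu0⟩, rfl⟩
    refine ⟨(u 0, u 1, u 2, u 3), ⟨hu0, ?_⟩, rfl⟩
    rw [ev_q]
    exact hu
  · rintro ⟨⟨a, b, c, d⟩, ⟨h0, h1⟩, h2⟩
    refine ⟨![a, b, c, d], ⟨?_, h0⟩, ?_⟩
    · rw [ev_q] at h1
      exact h1
    · rw [← hom.symm_apply_apply x, ← h2]
      funext i
      fin_cases i <;> rfl

lemma sa_open : Pool.Agent.H581R2.SA (realCover G ∩ {x | x 0 ≠ 0}) := by
  classical
  refine ⟨{X 0, X 0 ^ 2 - rename Fin.succ G}, fun v w h hv => ?_⟩
  have h1 := h (X 0) (by simp)
  have h2 := h (X 0 ^ 2 - rename Fin.succ G) (by simp)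
  have hr : ∀ v : Fin 4 → ℝ, aeval v (rename Fin.succ G : MvPolynomial (Fin 4) ℚ) =
      aeval ![v 1, v 2, v 3] G := by
    intro v
    rw [aeval_rename]
    have e : v ∘ Fin.succ = ![v 1, v 2, v 3] := by
      funext i
      fin_cases i <;> rfl
    rw [e]
  rw [aeval_X, aeval_X] at h1
  have hp : ∀ v : Fin 4 → ℝ, aeval v (X 0 ^ 2 - rename Fin.succ G : MvPolynomial (Fin 4) ℚ) =
      v 0 ^ 2 - aeval ![v 1, v 2, v 3] G := by
    intro v
    rw [map_sub, map_pow, aeval_X, hr]
  rw [hp, hp] at h2
  have h3 : v 0 ^ 2 - aeval ![v 1, v 2, v 3] G = 0 := sub_eq_zero.2 hv.1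
  rw [h3, sign_zero, eq_comm, sign_eq_zero_iff] at h2
  refine ⟨sub_eq_zero.1 h2, fun h0 => hv.2 ?_⟩
  rw [h0, sign_zero, sign_eq_zero_iff] at h1
  exact h1

end aux

/-- **The components of the closure of the set of rational points of double covers of the flag
variety.** -/
theorem result (c : Fin 3 → Fin 3 → Fin 3 → Fin 3 → ℚ) :
    -- (1) the rational points outside the branch divisor
    (Finite (ConnectedComponents ↥(realClosure {u | u ∈ cover (affineForm c) ∧ u 0 ≠ 0})) ∧
      Finite (ConnectedComponents
        ↥(realClosure {u | u ∈ cover (affineForm c) ∧ u 0 ≠ 0} ∩ {x | x 0 ≠ 0}))) ∧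
    -- (2) the closure is open outside the branch divisor
    (∀ T ∈ realClosure (cover (affineForm c)), T 0 ≠ 0 → ∃ U ∈ 𝓝 T,
      U ∩ realCover (affineForm c) ⊆ realClosure (cover (affineForm c))) ∧
    -- (3) all rational points
    ({z : Fin 3 → ℚ | eval z (affineForm c) = 0 ∧ eval z (pderiv 0 (affineForm c)) = 0 ∧
        eval z (pderiv 1 (affineForm c) + X 0 * pderiv 2 (affineForm c)) = 0}.Finite →
      Finite (ConnectedComponents ↥(realClosure (cover (affineForm c))))) := by
  obtain ⟨A, B, C₀, hG1⟩ := branch_dec1 c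
  obtain ⟨A', B', C₀', hG2⟩ := branch_dec2 c
  obtain ⟨d₁⟩ := dirData hG1 hG2 true
  obtain ⟨d₂⟩ := dirData hG1 hG2 false
  change DirData (affineForm c) true at d₁
  change DirData (affineForm c) false at d₂
  set G := affineForm c with hG
  clear_value G
  set O := realClosure {u | u ∈ cover G ∧ u 0 ≠ 0} with hO
  have hOW : O = hom ⁻¹' (W0 G) := out_eq
  have hopen : ∀ T ∈ O, T 0 ≠ 0 → ∀ᶠ S in 𝓝 T, S ∈ realCover G → S ∈ O := by
    intro T hT hT0
    rw [hOW] at hT ⊢
    exact (hom.continuous.continuousAt (x := T)).eventually (W0_open d₁ d₂ (T := hom T) hT hT0)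
  have hOX : O ⊆ realCover G := by
    have hcl : IsClosed (realCover G) := by
      have h1 : Continuous fun x : Fin 4 → ℝ => ev G (hom x).2 :=
        (ev_cont G).comp (continuous_snd.comp hom.continuous)
      have h2 : realCover G = {x : Fin 4 → ℝ | x 0 ^ 2 = ev G (hom x).2} := rfl
      rw [h2]
      exact isClosed_eq (by fun_prop) h1
    refine closure_minimal ?_ hcl
    rintro _ ⟨u, ⟨hu, -⟩, rfl⟩
    change ((u 0 : ℚ) : ℝ) ^ 2 = ev G (kap (u 0, u 1, u 2, u 3)).2
    rw [ev_kap, ev_q, ← show u 0 ^ 2 = eval ![u 1, u 2, u 3] G from hu]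
    push_cast
    rfl
  -- the decomposition
  obtain ⟨I, hI, D, hD, hDU⟩ := comp_union (V := realCover G ∩ {x | x 0 ≠ 0})
    (C := O ∩ {x | x 0 ≠ 0}) (Pool.Agent.TH729.SQ.sa_comp sa_open)
    (fun x hx => ⟨hOX hx.1, hx.2⟩)
    (fun x hx => by
      filter_upwards [hopen x hx.1 hx.2] with y hy hyV
      exact ⟨hy hyV.1, hyV.2⟩)
    (fun x hx hxC => by
      have h1 : x ∉ O := fun h => hxC ⟨h, hx.2⟩
      filter_upwards [(isClosed_closure (s := {x : Fin 4 → ℝ | ∃ u ∈ {u | u ∈ cover G ∧ u 0 ≠ 0},
        x = fun k => (u k : ℝ)})).isOpen_compl.mem_nhds h1] with y hy hyC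
      exact hy hyC.1)
  have hOc : O = ⋃ i, closure (D i) := by
    rw [← closure_iUnion_of_finite, ← hDU]
    refine subset_antisymm ?_ ?_
    · refine closure_mono ?_
      rintro _ ⟨u, hu, rfl⟩
      refine ⟨subset_closure ⟨u, hu, rfl⟩, ?_⟩
      exact Rat.cast_ne_zero.2 hu.2
    · exact closure_minimal Set.inter_subset_left isClosed_closure
  -- all rational points
  have hall : realClosure (cover G) = O ∪
      closure {x : Fin 4 → ℝ | ∃ u ∈ {u | u ∈ cover G ∧ u 0 = 0}, x = fun k => (u k : ℝ)} := by
    rw [hO, realClosure, realClosure, ← closure_union]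
    congr 1
    ext x
    constructor
    · rintro ⟨u, hu, rfl⟩
      by_cases h0 : u 0 = 0
      · exact Or.inr ⟨u, ⟨hu, h0⟩, rfl⟩
      · exact Or.inl ⟨u, ⟨hu, h0⟩, rfl⟩
    · rintro (⟨u, hu, rfl⟩ | ⟨u, hu, rfl⟩)
      · exact ⟨u, hu.1, rfl⟩
      · exact ⟨u, hu.1, rfl⟩
  refine ⟨⟨fin_comp (fun i => (hD i).closure) hOc, fin_comp hD hDU⟩, ?_, ?_⟩
  · intro T hT hT0
    rw [hall] at hT ⊢
    have hTO : T ∈ O := by
      rcases hT with hT | hT
      · exact hT
      · exfalso
        have hcl : IsClosed {x : Fin 4 → ℝ | x 0 = 0} := isClosed_eq (by fun_prop) (by fun_prop)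
        refine hT0 (closure_minimal ?_ hcl hT)
        rintro _ ⟨u, hu, rfl⟩
        change ((u 0 : ℚ) : ℝ) = 0
        rw [hu.2, Rat.cast_zero]
    refine ⟨_, hopen T hTO hT0, ?_⟩
    rintro S ⟨hS1, hS2⟩
    exact Or.inl (hS1 hS2)
  · intro hfin
    -- the bad points
    let bad : Set (Fin 4 → ℝ) := (fun z : Fin 3 → ℚ => (![0, (z 0 : ℝ), (z 1 : ℝ), (z 2 : ℝ)] :
      Fin 4 → ℝ)) '' {z : Fin 3 → ℚ | eval z G = 0 ∧ eval z (pderiv 0 G) = 0 ∧
        eval z (pderiv 1 G + X 0 * pderiv 2 G) = 0}
    have hbad : bad.Finite := hfin.image _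
    have hsub : {x : Fin 4 → ℝ | ∃ u ∈ {u | u ∈ cover G ∧ u 0 = 0}, x = fun k => (u k : ℝ)} ⊆
        O ∪ bad := by
      rintro _ ⟨u, ⟨hu, hu0⟩, rfl⟩
      have hz : ev G (u 1, u 2, u 3) = 0 := by
        rw [ev_q, ← show u 0 ^ 2 = eval ![u 1, u 2, u 3] G from hu, hu0]
        ring
      have hmem : ∀ {i : Bool} (d : DirData G i), ev d.β (u 1, u 2, u 3) ≠ 0 →
          (fun k => ((u k : ℚ) : ℝ)) ∈ O := by
        intro i d hβ
        have h1 := W0_branch d hz hβ
        rw [hOW]
        change ((u 0 : ℝ), (u 1 : ℝ), (u 2 : ℝ), (u 3 : ℝ)) ∈ W0 G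
        rw [hu0]
        exact h1
      by_cases hb1 : ev d₁.β (u 1, u 2, u 3) = 0
      · by_cases hb2 : ev d₂.β (u 1, u 2, u 3) = 0
        · right
          have e1 : d₁.β = pderiv 0 G := d₁.hβ
          have e2 : d₂.β = pderiv 1 G + X 0 * pderiv 2 G := d₂.hβ
          rw [e1, ev_q] at hb1
          rw [e2, ev_q] at hb2
          rw [ev_q] at hz
          refine ⟨![u 1, u 2, u 3], ⟨hz, hb1, hb2⟩, ?_⟩
          funext k
          fin_cases k
          · simp [hu0]
          · rfl
          · rfl
          · rfl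
        · exact Or.inl (hmem d₂ hb2)
      · exact Or.inl (hmem d₁ hb1)
    have hset : realClosure (cover G) =
        ⋃ i : I ⊕ {x // x ∈ bad ∩ realClosure (cover G)},
          Sum.elim (fun i => closure (D i)) (fun x => {x.1}) i := by
      rw [Set.iUnion_sum]
      simp only [Sum.elim_inl, Sum.elim_inr]
      rw [← hOc]
      refine subset_antisymm ?_ ?_
      · intro x hx
        have hx' := hx
        rw [hall] at hx'
        rcases hx' with h1 | h1
        · exact Or.inl h1
        · have h2 := closure_mono hsub h1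
          rw [closure_union, hbad.isClosed.closure_eq,
            (show IsClosed O from isClosed_closure).closure_eq] at h2
          rcases h2 with h3 | h3
          · exact Or.inl h3
          · exact Or.inr (Set.mem_iUnion.2 ⟨⟨x, h3, hx⟩, rfl⟩)
      · rintro x (h1 | h1)
        · rw [hall]
          exact Or.inl h1
        · obtain ⟨y, hy⟩ := Set.mem_iUnion.1 h1
          rw [Set.mem_singleton_iff.1 hy]
          exact y.2.2
    have hfb : Finite {x // x ∈ bad ∩ realClosure (cover G)} :=
      (hbad.subset Set.inter_subset_left).to_subtype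
    refine fin_comp ?_ hset
    rintro (i | x)
    · exact (hD i).closure
    · exact isPreconnected_singleton

end Pool.Agent.Results.MP_4d3b00_ag.FlagDoubleCovers
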